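import Pool.Agent.H20.KH.Stmts
import Pool.Agent.H44.KG.SCL

/-!
# Project KH, module LIS: the third order improved Lichnerowicz inequality, scaled
-/

set_option autoImplicit false

open MeasureTheory Set Filter Topology
open scoped ContDiff

namespace Pool.Agent.H47.KH

open Pool.Agent.H84 Pool.Agent.H84.Sym Pool.Agent.H84.Sym.P2x
open Pool.Agent.H19.KL Pool.Agent.H73.KG Pool.Agent.H20.KH

theorem lis_thm (E : Type) [NormedAddCommGroup E] [InnerProductSpace ℝ E]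
    [FiniteDimensional ℝ E] [MeasurableSpace E] [BorelSpace E] (hBAS : BASStmt E)
    (hLI3 : LI3Stmt E) : LISStmt E := by
  intro U s Λ K hPP hs1 hΛ hcov hK hQK
  obtain ⟨⟨C, hU⟩, hp⟩ := id hPP
  have hs : 0 < s := hU.pos
  have hUc : Continuous U := hU.smooth.continuous
  have hΛ0 : 0 < Λ := by linarith
  set r : ℝ := Real.sqrt Λ with hr
  have hr0 : 0 < r := Real.sqrt_pos.2 hΛ0
  have hr2 : r ^ 2 = Λ := Real.sq_sqrt hΛ0.le
  have hPP' : PP (SCL_dl U r) (r ^ 2 * s) := SCL_pp hPP hr0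
  have hPPs : PP (SCL_dl U r) s := by
    refine hBAS.1 _ _ s hPP' hs ?_
    rw [hr2]
    nlinarith
  have hcov' : CovLe (SCL_dl U r) 1 := SCL_cov hUc hr0 hcov hr2
  have hG := hLI3 (SCL_dl U r) s K hPPs hs1 hcov' hK (hQK _ hPPs hcov')
  set c : ℝ := 100 * (K / s) ^ ((1:ℝ) / 3) with hc
  have hp' : IsProbabilityMeasure (mu (SCL_dl U r)) := hPPs.2
  intro f hf hfc
  have hgc : ContDiff ℝ 1 (fun w : E => f (r • w)) := hf.comp (contDiff_const_smul r)
  have hgs : HasCompactSupport (fun w : E => f (r • w)) :=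
    hfc.comp_homeomorph (Homeomorph.smulOfNeZero r hr0.ne')
  have h1 := hG _ hgc hgs
  have e0 : ∀ x : E, r • r⁻¹ • x = x := fun x => by
    rw [smul_smul, mul_inv_cancel₀ hr0.ne', one_smul]
  have e1 : ∫ w, f (r • w) ^ 2 ∂(mu (SCL_dl U r)) = ∫ x, f x ^ 2 ∂(mu U) := by
    rw [SCL_int hUc hr0]
    simp only [e0]
  have e2 : ∫ w, f (r • w) ∂(mu (SCL_dl U r)) = ∫ x, f x ∂(mu U) := by
    rw [SCL_int hUc hr0]
    simp only [e0]
  have e3 : ∫ w, ‖fderiv ℝ (fun w : E => f (r • w)) w‖ ^ 2 ∂(mu (SCL_dl U r)) =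
      Λ * ∫ x, ‖fderiv ℝ f x‖ ^ 2 ∂(mu U) := by
    have h2 := SCL_fd f (hf.differentiable (by norm_num)) r 0
    simp only [add_zero] at h2
    rw [h2, SCL_int hUc hr0, ← integral_const_mul]
    refine integral_congr_ae (Eventually.of_forall fun x => ?_)
    simp only [e0]
    rw [norm_smul, mul_pow, Real.norm_eq_abs, sq_abs, hr2]
  rw [e1, e2, e3] at h1
  simp only [probReal_univ, one_mul] at h1 ⊢
  calc (∫ x, f x ^ 2 ∂(mu U)) - (∫ x, f x ∂(mu U)) ^ 2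
      ≤ c * (Λ * ∫ x, ‖fderiv ℝ f x‖ ^ 2 ∂(mu U)) := h1
    _ = Λ * c * ∫ x, ‖fderiv ℝ f x‖ ^ 2 ∂(mu U) := by ring

end Pool.Agent.H47.KH
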