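import Pool.Agent.H20.KH.Stmts
import Pool.Agent.H33.KG.BAS

/-!
# Project KH, module TCY: the three-cycle lemma
-/

set_option autoImplicit false
set_option linter.unusedSectionVars false

open MeasureTheory Set Filter Topology
open scoped ContDiff

namespace Pool.Agent.H47.KH

open Pool.Agent.H84 Pool.Agent.H84.Sym Pool.Agent.H84.Sym.P2x Pool.Agent.H84.Sym.C29
open Pool.Agent.H19.KL Pool.Agent.H73.KG Pool.Agent.H20.KH

/-! ## norms of finite families -/

section nn

variable {X : Type} [Fintype X]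

/-- Euclidean norm of a finite family -/
noncomputable def nn (f : X → ℝ) : ℝ := Real.sqrt (∑ x, (f x) ^ 2)

theorem nn_nonneg (f : X → ℝ) : 0 ≤ nn f := Real.sqrt_nonneg _

theorem nn_eq (f : X → ℝ) : nn f = ‖(WithLp.toLp 2 f : EuclideanSpace ℝ X)‖ := by
  rw [EuclideanSpace.norm_eq]
  unfold nn
  congr 1
  refine Finset.sum_congr rfl fun x _ => ?_
  rw [Real.norm_eq_abs, sq_abs]

theorem nn_add (f g : X → ℝ) : nn (fun x => f x + g x) ≤ nn f + nn g := by
  rw [nn_eq, nn_eq, nn_eq]
  exact norm_add_le (WithLp.toLp 2 f : EuclideanSpace ℝ X) (WithLp.toLp 2 g)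

theorem nn_neg (f : X → ℝ) : nn (fun x => - f x) = nn f := by
  unfold nn
  simp only [neg_sq]

theorem nn_sub (f g : X → ℝ) : nn (fun x => f x - g x) ≤ nn f + nn g := by
  have h := nn_add f (fun x => - g x)
  rw [nn_neg] at h
  simpa only [sub_eq_add_neg] using h

theorem nn_comp (f : X → ℝ) (e : X ≃ X) : nn (fun x => f (e x)) = nn f := by
  unfold nn
  rw [Equiv.sum_comp e fun x => f x ^ 2]

theorem nn_sq (f : X → ℝ) : nn f ^ 2 = ∑ x, (f x) ^ 2 :=
  Real.sq_sqrt (Finset.sum_nonneg fun _ _ => sq_nonneg _)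

end nn

/-! ## the algebraic part -/

section alg

variable {ι κ : Type} [Fintype ι] [Fintype κ]

/-- swap of the last two indices -/
def eP : ((ι × κ) × ι × ι) ≃ ((ι × κ) × ι × ι) where
  toFun x := (x.1, x.2.2, x.2.1)
  invFun x := (x.1, x.2.2, x.2.1)
  left_inv _ := rfl
  right_inv _ := rfl

/-- swap of the first two indices -/
def eQ : ((ι × κ) × ι × ι) ≃ ((ι × κ) × ι × ι) where
  toFun x := ((x.2.1, x.1.2), x.1.1, x.2.2)
  invFun x := ((x.2.1, x.1.2), x.1.1, x.2.2)
  left_inv _ := rfl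
  right_inv _ := rfl

/-- the three-cycle -/
def eZ : ((ι × κ) × ι × ι) ≃ ((ι × κ) × ι × ι) where
  toFun x := ((x.2.2, x.1.2), x.1.1, x.2.1)
  invFun x := ((x.2.1, x.1.2), x.2.2, x.1.1)
  left_inv _ := rfl
  right_inv _ := rfl

theorem three_cycle (m s d : ((ι × κ) × ι × ι) → ℝ)
    (hs : ∀ x, s x = m x + m (eP x)) (hd : ∀ x, d x = m x - m (eQ x)) :
    nn m ≤ 3 / 2 * (nn s + nn d) := by
  set e : ((ι × κ) × ι × ι) → ℝ := fun x => s x - d (eP x) with he
  have h1 : nn e ≤ nn s + nn d := by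
    have := nn_sub s (fun x => d (eP x))
    rwa [nn_comp d eP] at this
  have h2 : ∀ x, 2 * m x = (e x - e (eZ x)) + e (eZ (eZ x)) := by
    intro x
    simp only [he, hs, hd]
    simp only [eP, eQ, eZ, Equiv.coe_fn_mk]
    ring
  have h3 : nn (fun x => 2 * m x) = 2 * nn m := by
    unfold nn
    have : ∑ x, (2 * m x) ^ 2 = 2 ^ 2 * ∑ x, m x ^ 2 := by
      rw [Finset.mul_sum]
      refine Finset.sum_congr rfl fun x _ => by ring
    rw [this, Real.sqrt_mul (by norm_num), Real.sqrt_sq (by norm_num)]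
  have h4 : nn (fun x => 2 * m x) ≤ 3 * nn e := by
    have e1 : (fun x => 2 * m x) = fun x => (e x - e (eZ x)) + e (eZ (eZ x)) := funext h2
    rw [e1]
    have e2 := nn_add (fun x => e x - e (eZ x)) (fun x => e (eZ (eZ x)))
    have e3 := nn_sub e (fun x => e (eZ x))
    have e4 : nn (fun x => e (eZ x)) = nn e := nn_comp e eZ
    have e5 : nn (fun x => e (eZ (eZ x))) = nn e := by
      have := nn_comp e (eZ.trans eZ)
      exact this
    linarith
  rw [h3] at h4
  linarith

end alg

/-! ## the analytic part -/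

section ana

variable {E : Type} [NormedAddCommGroup E] [InnerProductSpace ℝ E]
    [FiniteDimensional ℝ E] [MeasurableSpace E] [BorelSpace E]
variable {ι : Type} [Fintype ι]

theorem cv_sub_right {U : E → ℝ} {t C : ℝ} (hU : Pot U t C)
    {f g h : E → ℝ} (hf : GC f) (hg : GC g) (hh : GC h) (c : ℝ) :
    cv U h (fun x => c * f x - g x) = c * cv U h f - cv U h g := by
  have e : (fun x => c * f x - g x) = fun x => c * f x + (-1) * g x := by
    funext x
    ring
  rw [BAS_symm, e, BAS_add hU ((GC.const c).mul hf) ((GC.const (-1)).mul hg) hh, BAS_smul,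
    BAS_smul, BAS_symm U f, BAS_symm U g]
  ring

/-- Bessel's inequality for the linear functions -/
theorem bessel {U : E → ℝ} {t C : ℝ} (hU : Pot U t C) (hp : IsProbabilityMeasure (mu U))
    (hcov : CovLe U 1) (b : OrthonormalBasis ι ℝ E) {ψ : E → ℝ} (hψ : GC ψ) :
    ∑ a, (cv U (li (b a)) ψ) ^ 2 ≤ cv U ψ ψ := by
  classical
  set c : ι → ℝ := fun a => cv U (li (b a)) ψ with hc
  set u : E := ∑ a, c a • b a with hu
  have h1 : cv U (li u) ψ = ∑ a, c a ^ 2 := by
    have hl : ∀ s : Finset ι, li (∑ i ∈ s, c i • b i) = fun z => ∑ i ∈ s, c i * li (b i) z := by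
      intro s
      funext z
      unfold li
      rw [sum_inner]
      exact Finset.sum_congr rfl fun i _ => by rw [real_inner_smul_left]
    have hG : ∀ s : Finset ι, GC (fun z => ∑ i ∈ s, c i * li (b i) z) := fun s =>
      GC.sum fun i => (GC.const (c i)).mul (BAS_li (b i))
    have hsum : ∀ (s : Finset ι),
        cv U (fun z => ∑ i ∈ s, c i * li (b i) z) ψ = ∑ i ∈ s, c i * cv U (li (b i)) ψ := by
      intro s
      induction s using Finset.induction_on with
      | empty =>
        simp only [Finset.sum_empty]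
        unfold Pool.Agent.H73.KG.cv
        simp
      | insert a s ha ih =>
        simp only [Finset.sum_insert ha]
        rw [BAS_add hU ((GC.const (c a)).mul (BAS_li (b a))) (hG s) hψ, BAS_smul, ih]
    rw [hu, hl, hsum]
    exact Finset.sum_congr rfl fun a _ => by rw [pow_two]
  have h2 : ‖u‖ ^ 2 = ∑ a, c a ^ 2 := by
    rw [hu, BAS_norm]
    exact Finset.sum_congr rfl fun a _ => by rw [pow_two]
  have h3 := BAS_cs hU hp (BAS_li u) hψ
  have h4 := hcov u
  have h5 := BAS_nonneg hU hp hψ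
  have h6 : 0 ≤ ∑ a, c a ^ 2 := Finset.sum_nonneg fun _ _ => sq_nonneg _
  rw [h1] at h3
  rw [h2, one_mul] at h4
  have h7 : (∑ a, c a ^ 2) ^ 2 ≤ (∑ a, c a ^ 2) * cv U ψ ψ :=
    h3.trans (mul_le_mul_of_nonneg_right h4 h5)
  rcases h6.eq_or_lt with h8 | h8
  · rw [← h8]
    exact h5
  · rw [pow_two] at h7
    exact le_of_mul_le_mul_left h7 h8

theorem cv_le_sq {U : E → ℝ} {ψ : E → ℝ} : cv U ψ ψ ≤ ∫ x, (ψ x) ^ 2 ∂(mu U) := by
  unfold Pool.Agent.H73.KG.cv
  simp only [← pow_two]
  linarith [sq_nonneg (∫ x, ψ x ∂(mu U))]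

/-- the symmetric part of the linear correlations -/
theorem sym_part {U : E → ℝ} {t C : ℝ} (hU : Pot U t C) (hp : IsProbabilityMeasure (mu U))
    (b : OrthonormalBasis ι ℝ E) {v : E → ℝ} (hv : Tst v) (i j : ι) :
    cv U (li (b j)) (D (b i) v) + cv U (li (b i)) (D (b j) v) =
      - q2 U (LO b U v) (b i) (b j) := by
  classical
  have hU1 : ContDiff ℝ 1 U := hU.smooth.of_le (by norm_num)
  have hv2 : ContDiff ℝ 2 v := by simpa using contDiff_infty.mp hv.1 2
  have gD : ∀ i, GC (D (b i) v) := fun i => GC.of_BC (tst_BC (tst_D hv (b i)))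
  have gL : GC (LO b U v) := GC.of_BC (LO_BC b hU1 hv)
  have hli : ∀ (e : E) (x : E), HasFDerivAt (li e) (innerSL ℝ e) x := fun e x =>
    (innerSL ℝ e).hasFDerivAt
  have hDli : ∀ (k i : ι) (x : E), D (b k) (li (b i)) x = if k = i then 1 else 0 := by
    intro k i x
    unfold D
    rw [(hli (b i) x).fderiv, innerSL_apply_apply]
    rw [orthonormal_iff_ite.1 b.orthonormal]
    by_cases h : k = i
    · rw [if_pos h, if_pos h.symm]
    · rw [if_neg h, if_neg (Ne.symm h)]
  have hcli : ∀ e : E, ContDiff ℝ 1 (li e) := fun e => (innerSL ℝ e).contDiff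
  set F : E → ℝ := fun x => (li (b i) x - mn U (b i)) * (li (b j) x - mn U (b j)) with hF
  have hFc : ContDiff ℝ 1 F := ((hcli _).sub contDiff_const).mul ((hcli _).sub contDiff_const)
  have gc : ∀ i, GC (fun x => li (b i) x - mn U (b i)) := fun i =>
    (BAS_li (b i)).sub (GC.const _)
  have gF : GC F := (gc i).mul (gc j)
  have hDF : ∀ (k : ι) (x : E), D (b k) F x = (if k = i then 1 else 0) * (li (b j) x - mn U (b j)) +
      (if k = j then 1 else 0) * (li (b i) x - mn U (b i)) := by
    intro k x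
    have h1 : HasFDerivAt F ((li (b i) x - mn U (b i)) • innerSL ℝ (b j) +
        (li (b j) x - mn U (b j)) • innerSL ℝ (b i)) x :=
      ((hli (b i) x).sub_const _).mul ((hli (b j) x).sub_const _)
    have h2 : ∀ i : ι, (innerSL ℝ (b i)) (b k) = if k = i then (1:ℝ) else 0 := by
      intro i
      have := hDli k i x
      unfold D at this
      rwa [(hli (b i) x).fderiv] at this
    unfold D
    rw [h1.fderiv]
    simp only [ContinuousLinearMap.add_apply, ContinuousLinearMap.smul_apply, smul_eq_mul, h2]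
    ring
  have hg1 := green b hU1 hv2 hFc (Or.inl hv.2)
  have hg0 := green b (f := fun _ => (1:ℝ)) hU1 hv2 contDiff_const (Or.inl hv.2)
  have hz : ∫ x, LO b U v x ∂(mu U) = 0 := by
    have h1 : ∀ (i : ι) (x : E), D (b i) (fun _ : E => (1:ℝ)) x = 0 := by
      intro i x
      unfold D
      simp
    simpa [h1] using hg0
  have h1 : q2 U (LO b U v) (b i) (b j) = ∫ x, LO b U v x * F x ∂(mu U) := by
    unfold q2 Pool.Agent.H73.KG.cv
    rw [hz, zero_mul, sub_zero]
  have h2 : ∀ x, ∑ k, D (b k) v x * D (b k) F x =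
      (li (b j) x - mn U (b j)) * D (b i) v x + (li (b i) x - mn U (b i)) * D (b j) v x := by
    intro x
    simp only [hDF, mul_add, Finset.sum_add_distrib]
    congr 1
    · rw [Finset.sum_eq_single i]
      · simp [mul_comm]
      · intro k _ hk
        simp [hk]
      · intro h
        exact absurd (Finset.mem_univ i) h
    · rw [Finset.sum_eq_single j]
      · simp [mul_comm]
      · intro k _ hk
        simp [hk]
      · intro h
        exact absurd (Finset.mem_univ j) h
  have h3 : ∀ i j : ι, cv U (li (b j)) (D (b i) v) =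
      ∫ x, (li (b j) x - mn U (b j)) * D (b i) v x ∂(mu U) := by
    intro i j
    have e : (fun x => (li (b j) x - mn U (b j)) * D (b i) v x) =
        fun x => li (b j) x * D (b i) v x - mn U (b j) * D (b i) v x := by
      funext x
      ring
    rw [e, integral_sub (((BAS_li (b j)).mul (gD i)).integrable hU)
      (((gD i).integrable hU).const_mul _), integral_const_mul]
    rfl
  rw [h1, hg1, neg_neg, h3 i j, h3 j i, ← integral_add (((gc j).mul (gD i)).integrable hU)
    (((gc i).mul (gD j)).integrable hU)]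
  exact integral_congr_ae (Eventually.of_forall fun x => (h2 x).symm)

end ana

theorem tcy_thm (E : Type) [NormedAddCommGroup E] [InnerProductSpace ℝ E]
    [FiniteDimensional ℝ E] [MeasurableSpace E] [BorelSpace E] : TCYStmt E := by
  rintro U t L K ⟨⟨C, hU⟩, hp⟩ hcov hK hQB ι κ _ _ b w v hw hv R hR
  have hU1 : ContDiff ℝ 1 U := hU.smooth.of_le (by norm_num)
  -- the tensors
  set m : ((ι × κ) × ι × ι) → ℝ := fun x => cv U (li (b x.2.2)) (D (b x.2.1) (v x.1)) with hm
  set r : ι × κ → E → ℝ := fun J x => L * D (b J.1) (w J.2) x - v J x with hr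
  have tr : ∀ J, Tst (r J) := by
    intro J
    have h1 := tst_D (hw J.2) (b J.1)
    refine ⟨(contDiff_const.mul h1.1).sub (hv J).1, ?_⟩
    exact (h1.2.mul_left).sub (hv J).2
  have gD : ∀ {f : E → ℝ}, Tst f → ∀ i, GC (D (b i) f) := fun hf i =>
    GC.of_BC (tst_BC (tst_D hf (b i)))
  set ρ : ((ι × κ) × ι × ι) → ℝ := fun x => cv U (li (b x.2.2)) (D (b x.2.1) (r x.1)) with hρ
  -- the first relation
  have h1 : nn (fun x => m x + m (eP x)) ≤ Real.sqrt (K * XX b U v) := by
    unfold nn
    apply Real.sqrt_le_sqrt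
    rw [Fintype.sum_prod_type]
    unfold XX
    rw [Finset.mul_sum]
    refine Finset.sum_le_sum fun J _ => ?_
    rw [Fintype.sum_prod_type]
    have e1 : ∀ i j, (m (J, i, j) + m (eP (J, i, j))) ^ 2 =
        (q2 U (LO b U (v J)) (b i) (b j)) ^ 2 := by
      intro i j
      have := sym_part hU hp b (hv J) i j
      rw [← neg_sq (q2 U (LO b U (v J)) (b i) (b j)), ← this]
      rfl
    simp only [e1]
    have gL : GC (LO b U (v J)) := GC.of_BC (LO_BC b hU1 (hv J))
    exact (hQB _ gL ι b).trans (mul_le_mul_of_nonneg_left cv_le_sq hK)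
  -- the second relation
  have h2 : nn ρ ≤ Real.sqrt R := by
    unfold nn
    apply Real.sqrt_le_sqrt
    rw [Fintype.sum_prod_type]
    refine le_trans (Finset.sum_le_sum fun J _ => ?_) hR
    rw [Fintype.sum_prod_type]
    have e1 : ∀ i, ∑ j, (ρ (J, i, j)) ^ 2 ≤ ∫ x, (D (b i) (r J) x) ^ 2 ∂(mu U) := fun i =>
      (bessel hU hp hcov b (gD (tr J) i)).trans cv_le_sq
    refine (Finset.sum_le_sum fun i _ => e1 i).trans (le_of_eq ?_)
    rw [← integral_finsetSum _ fun i _ => ((gD (tr J) i).sq).integrable hU]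
    refine integral_congr_ae (Eventually.of_forall fun x => ?_)
    exact (norm_fderiv_sq b (r J) x).symm
  have h3 : ∀ x, m x - m (eQ x) = ρ (eQ x) - ρ x := by
    intro x
    have e1 : ∀ (c i j : ι) (I : κ), ρ ((c, I), i, j) =
        L * cv U (li (b j)) (D (b i) (D (b c) (w I))) - m ((c, I), i, j) := by
      intro c i j I
      have e2 : D (b i) (r (c, I)) = fun x => L * D (b i) (D (b c) (w I)) x - D (b i) (v (c, I)) x := by
        funext x
        have d1 : DifferentiableAt ℝ (D (b c) (w I)) x :=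
          (tst_D (hw I) (b c)).1.differentiable (by simp) x
        have d2 : DifferentiableAt ℝ (v (c, I)) x := (hv (c, I)).1.differentiable (by simp) x
        have d3 : HasFDerivAt (r (c, I)) (L • fderiv ℝ (D (b c) (w I)) x - fderiv ℝ (v (c, I)) x) x :=
          (d1.hasFDerivAt.const_mul L).sub d2.hasFDerivAt
        show fderiv ℝ (r (c, I)) x (b i) = _
        rw [d3.fderiv]
        rfl
      show cv U (li (b j)) (D (b i) (r (c, I))) = _
      rw [e2, cv_sub_right hU (gD (tst_D (hw I) (b c)) i) (gD (hv (c, I)) i) (BAS_li _)]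
    obtain ⟨⟨c, I⟩, i, j⟩ := x
    have e3 : D (b i) (D (b c) (w I)) = D (b c) (D (b i) (w I)) := by
      funext y
      have hw2 : ContDiff ℝ 2 (w I) := by simpa using contDiff_infty.mp (hw I).1 2
      exact D_comm hw2 _ _ _
    have e4 := e1 c i j I
    have e5 := e1 i c j I
    rw [e3] at e4
    show m ((c, I), i, j) - m ((i, I), c, j) = ρ ((i, I), c, j) - ρ ((c, I), i, j)
    linarith
  have h4 : nn (fun x => m x - m (eQ x)) ≤ 2 * Real.sqrt R := by
    have e1 : (fun x => m x - m (eQ x)) = fun x => ρ (eQ x) - ρ x := funext h3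
    rw [e1]
    have e2 := nn_sub (fun x => ρ (eQ x)) ρ
    rw [nn_comp ρ eQ] at e2
    linarith
  have h5 := three_cycle m _ _ (fun x => rfl) (fun x => rfl)
  have h6 : TT b U v = nn m ^ 2 := by
    rw [nn_sq, Fintype.sum_prod_type]
    unfold TT
    refine Finset.sum_congr rfl fun J _ => ?_
    rw [Fintype.sum_prod_type]
  rw [h6]
  have h7 : nn m ≤ 3 / 2 * (Real.sqrt (K * XX b U v) + 2 * Real.sqrt R) := by linarith
  have h8 := pow_le_pow_left₀ (nn_nonneg m) h7 2
  rw [mul_pow] at h8
  norm_num at h8 ⊢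
  exact h8

end Pool.Agent.H47.KH
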